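import Pool.Agent.H31.LV.Basic
import Pool.Agent.H31.LV.Targets

/-!
# EC: Parseval modulo `q`
-/

set_option autoImplicit false

open Finset MeasureTheory

namespace Pool.Agent.H33.LVP

open Pool.Agent.H24.CL Pool.Agent.H24.LV Pool.Agent.H31.LV

theorem ee_eq_one {x : ℝ} (h : ee x = 1) : ∃ n : ℤ, x = n := by
  unfold ee at h
  rw [Complex.exp_eq_one_iff] at h
  obtain ⟨n, hn⟩ := h
  refine ⟨n, ?_⟩
  have h1 : ((2 * Real.pi * x : ℝ) : ℂ) = ((n * (2 * Real.pi) : ℝ) : ℂ) := by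
    have hI : Complex.I ≠ 0 := Complex.I_ne_zero
    apply mul_right_cancel₀ hI
    rw [hn]
    push_cast
    ring
  have h2 : 2 * Real.pi * x = n * (2 * Real.pi) := by exact_mod_cast h1
  have hpi : (2 * Real.pi) ≠ 0 := by positivity
  have h3 : (2 * Real.pi) * x = (2 * Real.pi) * n := by linarith
  exact mul_left_cancel₀ hpi h3

/-- orthogonality -/
theorem orth (q : ℕ) (hq : 1 ≤ q) (h : ℤ) :
    ∑ r ∈ range q, ee ((h : ℝ) * r / q) = if (q : ℤ) ∣ h then (q : ℂ) else 0 := by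
  have hq0 : (q : ℝ) ≠ 0 := by exact_mod_cast (by omega : q ≠ 0)
  by_cases hd : (q : ℤ) ∣ h
  · rw [if_pos hd]
    obtain ⟨t, rfl⟩ := hd
    have : ∀ r ∈ range q, ee (((q * t : ℤ) : ℝ) * r / q) = 1 := by
      intro r _
      have e1 : ((q * t : ℤ) : ℝ) * r / q = ((t * r : ℤ) : ℝ) := by
        push_cast
        field_simp
      rw [e1, ee_int]
    rw [Finset.sum_congr rfl this]
    simp
  · rw [if_neg hd]
    set ω : ℂ := ee ((h : ℝ) / q) with hω
    have h1 : ∀ r ∈ range q, ee ((h : ℝ) * r / q) = ω ^ r := by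
      intro r _
      rw [hω, ← ee_pow]
      congr 1
      ring
    rw [Finset.sum_congr rfl h1]
    have h2 : ω ≠ 1 := by
      intro h3
      obtain ⟨n, hn⟩ := ee_eq_one h3
      apply hd
      refine ⟨n, ?_⟩
      have : (h : ℝ) = (q : ℝ) * n := by
        field_simp at hn
        linarith
      exact_mod_cast this
    have h3 : ω ^ q = 1 := by
      rw [hω, ← ee_pow]
      have : (q : ℝ) * ((h : ℝ) / q) = (h : ℤ) := by field_simp
      rw [this, ee_int]
    have h4 := mul_geom_sum ω q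
    rw [h3, sub_self] at h4
    rcases mul_eq_zero.1 h4 with h5 | h5
    · exact absurd (sub_eq_zero.1 h5) h2
    · exact h5

/-- Parseval modulo `q` -/
theorem parseval (q : ℕ) (hq : 1 ≤ q) (c : ℕ → ℂ) :
    (1 / (q : ℝ)) * ∑ r ∈ range q, ‖∑ l ∈ range q, c l * ee ((l : ℝ) * r / q)‖ ^ 2 =
      ∑ l ∈ range q, ‖c l‖ ^ 2 := by
  have hq0 : (q : ℝ) ≠ 0 := by exact_mod_cast (by omega : q ≠ 0)
  have hq0' : (q : ℂ) ≠ 0 := by exact_mod_cast (by omega : q ≠ 0)
  have key : ((∑ r ∈ range q, ‖∑ l ∈ range q, c l * ee ((l : ℝ) * r / q)‖ ^ 2 : ℝ) : ℂ) =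
      (((q : ℝ) * ∑ l ∈ range q, ‖c l‖ ^ 2 : ℝ) : ℂ) := by
    push_cast
    have h1 : ∀ r ∈ range q, ((‖∑ l ∈ range q, c l * ee ((l : ℝ) * r / q)‖ : ℂ)) ^ 2 =
        ∑ l ∈ range q, ∑ l' ∈ range q, c l * (starRingEnd ℂ) (c l') *
          ee ((((l : ℤ) - (l' : ℤ) : ℤ) : ℝ) * r / q) := by
      intro r _
      rw [← Complex.mul_conj', map_sum, Finset.sum_mul_sum]
      refine Finset.sum_congr rfl fun l _ => Finset.sum_congr rfl fun l' _ => ?_
      rw [map_mul]
      have e1 : ((((l : ℤ) - (l' : ℤ) : ℤ) : ℝ) * r / q) = (l : ℝ) * r / q - (l' : ℝ) * r / q := by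
        push_cast
        ring
      rw [e1, ee_sub]
      ring
    rw [Finset.sum_congr rfl h1, Finset.sum_comm]
    rw [Finset.mul_sum]
    refine Finset.sum_congr rfl fun l hl => ?_
    rw [Finset.sum_comm]
    have h2 : ∀ l' ∈ range q, ∑ r ∈ range q, c l * (starRingEnd ℂ) (c l') *
          ee ((((l : ℤ) - (l' : ℤ) : ℤ) : ℝ) * r / q) =
          if l' = l then (q : ℂ) * (‖c l‖ : ℂ) ^ 2 else 0 := by
      intro l' hl'
      rw [← Finset.mul_sum, orth q hq]
      by_cases h : l' = l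
      · subst h
        rw [if_pos (by simp), if_pos rfl, Complex.mul_conj']
        ring
      · rw [if_neg h, if_neg, mul_zero]
        intro hd
        rw [Finset.mem_range] at hl hl'
        apply h
        have h3 : ((l : ℤ) - (l' : ℤ)) = 0 := by
          apply Int.eq_zero_of_abs_lt_dvd hd
          rw [abs_lt]
          constructor <;> omega
        omega
    rw [Finset.sum_congr rfl h2, Finset.sum_ite_eq' (range q) l, if_pos hl]
  have key' := Complex.ofReal_injective key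
  rw [key']
  field_simp

theorem Fz_periodic {k : ℕ} (q : ℕ) (f : Fin k → ℤ) (z z' : ℤ) (h : (q : ℤ) ∣ z - z') :
    (q : ℤ) ∣ Fz f z - Fz f z' := by
  unfold Fz
  rw [← Finset.sum_sub_distrib]
  refine Finset.dvd_sum fun i _ => ?_
  by_cases hi : i.val = 0
  · simp [hi]
  · simp only [hi, if_false]
    rw [← mul_sub]
    exact Dvd.dvd.mul_left (h.trans (sub_dvd_pow_sub_pow z z' _)) _

theorem ee_Fz {k : ℕ} (q : ℕ) (hq : 1 ≤ q) (f : Fin k → ℤ) (z z' : ℤ) (h : (q : ℤ) ∣ z - z') :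
    ee ((Fz f z : ℝ) / q) = ee ((Fz f z' : ℝ) / q) := by
  have hq0 : (q : ℝ) ≠ 0 := by exact_mod_cast (by omega : q ≠ 0)
  obtain ⟨t, ht⟩ := Fz_periodic q f z z' h
  refine ee_congr _ _ t ?_
  have h1 : ((Fz f z - Fz f z' : ℤ) : ℝ) = ((q * t : ℤ) : ℝ) := by rw [ht]
  push_cast at h1
  field_simp
  linarith

/-- the coefficients -/
noncomputable def ph {k : ℕ} (q : ℕ) (f : Fin k → ℤ) (l : ℕ) : ℂ :=
  (1 / (q : ℂ)) * ∑ z ∈ range q, ee (((Fz f z : ℝ) - (l : ℝ) * z) / q)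

/-- inversion -/
theorem inversion {k : ℕ} (q : ℕ) (hq : 1 ≤ q) (f : Fin k → ℤ) (z : ℤ) :
    ee ((Fz f z : ℝ) / q) = ∑ l ∈ range q, ph q f l * ee ((l : ℝ) * z / q) := by
  have hq0 : (q : ℝ) ≠ 0 := by exact_mod_cast (by omega : q ≠ 0)
  have hq0' : (q : ℂ) ≠ 0 := by exact_mod_cast (by omega : q ≠ 0)
  unfold ph
  have h1 : ∀ l ∈ range q, (1 / (q : ℂ)) * (∑ z' ∈ range q,
      ee (((Fz f z' : ℝ) - (l : ℝ) * z') / q)) * ee ((l : ℝ) * z / q) =
      ∑ z' ∈ range q, (1 / (q : ℂ)) * ee ((Fz f z' : ℝ) / q) *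
        ee (((z - (z' : ℤ) : ℤ) : ℝ) * l / q) := by
    intro l _
    rw [mul_assoc, Finset.sum_mul, Finset.mul_sum]
    refine Finset.sum_congr rfl fun z' _ => ?_
    rw [mul_assoc, ← ee_add, ← ee_add]
    congr 2
    push_cast
    ring
  rw [Finset.sum_congr rfl h1, Finset.sum_comm]
  have hz0 : 0 ≤ z % (q : ℤ) := Int.emod_nonneg _ (by omega)
  have hzq : z % (q : ℤ) < q := Int.emod_lt_of_pos _ (by omega)
  have h2 : ∀ z' ∈ range q, ∑ l ∈ range q, (1 / (q : ℂ)) * ee ((Fz f z' : ℝ) / q) *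
        ee (((z - (z' : ℤ) : ℤ) : ℝ) * l / q) =
      if z' = (z % (q : ℤ)).toNat then ee ((Fz f z : ℝ) / q) else 0 := by
    intro z' hz'
    rw [← Finset.mul_sum, orth q hq]
    rw [Finset.mem_range] at hz'
    by_cases h : z' = (z % (q : ℤ)).toNat
    · have h3 : (z' : ℤ) = z % q := by omega
      have h4 : (q : ℤ) ∣ z - (z' : ℤ) := by
        rw [h3]
        exact Int.dvd_self_sub_emod
      rw [if_pos h4, if_pos h, ee_Fz q hq f z z' h4]
      field_simp
    · rw [if_neg h, if_neg, mul_zero]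
      intro hd
      apply h
      have h5 : z % (q : ℤ) = (z' : ℤ) % q :=
        (Int.emod_eq_emod_iff_emod_sub_eq_zero).2 (Int.emod_eq_zero_of_dvd hd)
      have h6 : (z' : ℤ) % q = z' := Int.emod_eq_of_lt (by omega) (by omega)
      omega
  rw [Finset.sum_congr rfl h2, Finset.sum_ite_eq', if_pos]
  rw [Finset.mem_range]
  omega

theorem pf_wEC : W_EC := by
  intro k q N f η ξ σ hq hN
  have hq0 : (q : ℝ) ≠ 0 := by exact_mod_cast (by omega : q ≠ 0)
  let B : ℕ → ℂ := fun l => (1 / (N : ℂ)) * ∑ n ∈ range N,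
    ee ((l : ℝ) * n / q + ξ * n + Ps η (n + σ))
  have h1 : ∀ r ∈ range q, ‖HH q f N η ξ (r : ℤ) σ‖ ^ 2 =
      ‖∑ l ∈ range q, (ph q f l * B l) * ee ((l : ℝ) * r / q)‖ ^ 2 := by
    intro r _
    congr 2
    unfold HH
    have h2 : ∀ n ∈ range N, ee ((Fz f ((n : ℤ) + r) : ℝ) / q + ξ * n + Ps η (n + σ)) =
        ∑ l ∈ range q, ph q f l * ee ((l : ℝ) * r / q) *
          ee ((l : ℝ) * n / q + ξ * n + Ps η (n + σ)) := by
      intro n _
      rw [add_assoc, ee_add, inversion q hq f ((n : ℤ) + r), Finset.sum_mul]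
      refine Finset.sum_congr rfl fun l _ => ?_
      rw [mul_assoc, mul_assoc, ← ee_add, ← ee_add]
      congr 2
      push_cast
      ring
    rw [Finset.sum_congr rfl h2, Finset.sum_comm, Finset.mul_sum]
    refine Finset.sum_congr rfl fun l _ => ?_
    rw [← Finset.mul_sum]
    simp only [B]
    ring
  rw [Finset.sum_congr rfl h1, parseval q hq]
  refine Finset.sum_congr rfl fun l _ => ?_
  have h3 : TT N η (ξ + (l : ℝ) / q) σ = ee ((ξ + (l : ℝ) / q) * σ) * B l := by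
    simp only [TT, B]
    rw [mul_left_comm]
    congr 1
    rw [Finset.mul_sum]
    refine Finset.sum_congr rfl fun n _ => ?_
    rw [← ee_add]
    congr 1
    ring
  have h4 : ‖TT N η (ξ + (l : ℝ) / q) σ‖ = ‖B l‖ := by
    rw [h3, norm_mul, norm_ee, one_mul]
  rw [norm_mul, mul_pow, Al_eq, h4]
  congr 1

end Pool.Agent.H33.LVP
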