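import Pool.Agent.H33.LVP.wEC

/-!
# RU: the functional for fractions which are not reduced
-/

set_option autoImplicit false

open Finset MeasureTheory

namespace Pool.Agent.H33.LVP

open Pool.Agent.H24.CL Pool.Agent.H24.LV Pool.Agent.H31.LV

theorem sum_range_split {M : Type*} [AddCommMonoid M] (g q : ℕ) (h : ℕ → M) :
    ∑ z ∈ range (g * q), h z = ∑ t ∈ range g, ∑ z ∈ range q, h (z + q * t) := by
  induction g with
  | zero => simp
  | succ g ih =>
    rw [Nat.succ_mul, Finset.sum_range_add, ih, Finset.sum_range_succ]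
    congr 1
    refine Finset.sum_congr rfl fun z _ => ?_
    congr 1
    ring

theorem Fz_mul {k : ℕ} (g : ℤ) (f f' : Fin k → ℤ) (h : ∀ i : Fin k, i.val ≠ 0 → f i = g * f' i)
    (z : ℤ) : Fz f z = g * Fz f' z := by
  unfold Fz
  rw [Finset.mul_sum]
  refine Finset.sum_congr rfl fun i _ => ?_
  by_cases hi : i.val = 0
  · simp [hi]
  · simp only [hi, if_false]
    rw [h i hi]
    ring

theorem term_eq {k : ℕ} (g q : ℕ) (hg : 1 ≤ g) (hq : 1 ≤ q) (f f' : Fin k → ℤ)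
    (h : ∀ i : Fin k, i.val ≠ 0 → f i = (g : ℤ) * f' i) (l : ℤ) (z t : ℕ) :
    ee (((Fz f ((z + q * t : ℕ) : ℤ) : ℝ) - (l : ℝ) * ((z + q * t : ℕ) : ℝ)) / ((g * q : ℕ) : ℝ)) =
      ee (((Fz f' (z : ℤ) : ℝ) - (l : ℝ) / g * z) / q) * ee (((-l : ℤ) : ℝ) * t / g) := by
  have hg0 : (g : ℝ) ≠ 0 := by exact_mod_cast (by omega : g ≠ 0)
  have hq0 : (q : ℝ) ≠ 0 := by exact_mod_cast (by omega : q ≠ 0)
  rw [← ee_add]
  have hd : (q : ℤ) ∣ ((z + q * t : ℕ) : ℤ) - (z : ℤ) := ⟨t, by push_cast; ring⟩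
  obtain ⟨s, hs⟩ := Fz_periodic q f' _ _ hd
  refine ee_congr _ _ s ?_
  rw [Fz_mul (g : ℤ) f f' h]
  have h1 : ((Fz f' ((z + q * t : ℕ) : ℤ) : ℤ) : ℝ) = (Fz f' (z : ℤ) : ℝ) + q * s := by
    have : (((Fz f' ((z + q * t : ℕ) : ℤ) - Fz f' (z : ℤ) : ℤ)) : ℝ) = ((q * s : ℤ) : ℝ) := by
      rw [hs]
    push_cast at this ⊢
    linarith
  rw [Int.cast_mul, h1]
  push_cast
  field_simp
  ring

theorem Al_red {k : ℕ} (g q : ℕ) (hg : 1 ≤ g) (hq : 1 ≤ q) (f f' : Fin k → ℤ)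
    (h : ∀ i : Fin k, i.val ≠ 0 → f i = (g : ℤ) * f' i) (l : ℤ) :
    Al (g * q) f ((g : ℤ) * l) = Al q f' l := by
  have hg0 : (g : ℝ) ≠ 0 := by exact_mod_cast (by omega : g ≠ 0)
  have hg0' : (g : ℂ) ≠ 0 := by exact_mod_cast (by omega : g ≠ 0)
  have hq0' : (q : ℂ) ≠ 0 := by exact_mod_cast (by omega : q ≠ 0)
  rw [Al_eq, Al_eq]
  congr 2
  rw [sum_range_split]
  have h1 : ∀ t ∈ range g, ∑ z ∈ range q, ee (((Fz f ((z + q * t : ℕ) : ℤ) : ℝ) -
      (((g : ℤ) * l : ℤ) : ℝ) * ((z + q * t : ℕ) : ℝ)) / ((g * q : ℕ) : ℝ)) =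
      ∑ z ∈ range q, ee (((Fz f' (z : ℤ) : ℝ) - (l : ℝ) * z) / q) := by
    intro t _
    refine Finset.sum_congr rfl fun z _ => ?_
    rw [term_eq g q hg hq f f' h]
    have e1 : (((-((g : ℤ) * l) : ℤ) : ℝ) * t / g) = ((-(l * t) : ℤ) : ℝ) := by
      push_cast
      field_simp
    have e2 : (((g : ℤ) * l : ℤ) : ℝ) / g = l := by
      push_cast
      field_simp
    rw [e1, ee_int, mul_one, e2]
  rw [Finset.sum_congr rfl h1, Finset.sum_const, Finset.card_range, nsmul_eq_mul]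
  push_cast
  field_simp

theorem Al_zero {k : ℕ} (g q : ℕ) (hg : 1 ≤ g) (hq : 1 ≤ q) (f f' : Fin k → ℤ)
    (h : ∀ i : Fin k, i.val ≠ 0 → f i = (g : ℤ) * f' i) (l : ℤ) (hl : ¬ (g : ℤ) ∣ l) :
    Al (g * q) f l = 0 := by
  rw [Al_eq, sum_range_split, Finset.sum_comm]
  have h1 : ∀ z ∈ range q, ∑ t ∈ range g, ee (((Fz f ((z + q * t : ℕ) : ℤ) : ℝ) -
      (l : ℝ) * ((z + q * t : ℕ) : ℝ)) / ((g * q : ℕ) : ℝ)) = 0 := by
    intro z _
    have h2 : ∀ t ∈ range g, ee (((Fz f ((z + q * t : ℕ) : ℤ) : ℝ) -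
      (l : ℝ) * ((z + q * t : ℕ) : ℝ)) / ((g * q : ℕ) : ℝ)) =
        ee (((Fz f' (z : ℤ) : ℝ) - (l : ℝ) / g * z) / q) * ee (((-l : ℤ) : ℝ) * t / g) :=
      fun t _ => term_eq g q hg hq f f' h l z t
    rw [Finset.sum_congr rfl h2, ← Finset.mul_sum, orth g hg, if_neg, mul_zero]
    rwa [dvd_neg]
  rw [Finset.sum_congr rfl h1]
  simp

theorem pf_wRU : W_RU := by
  classical
  intro k q f hq
  set s : Finset (Fin k) := univ.filter (fun i : Fin k => i.val ≠ 0) with hs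
  set g : ℕ := Nat.gcd q (s.gcd (fun i => (f i).natAbs)) with hg
  have hg1 : 1 ≤ g := Nat.gcd_pos_of_pos_left _ hq
  have hgq : g ∣ q := Nat.gcd_dvd_left _ _
  have hgf : ∀ i : Fin k, i.val ≠ 0 → (g : ℤ) ∣ f i := by
    intro i hi
    have h1 : g ∣ (f i).natAbs :=
      (Nat.gcd_dvd_right _ _).trans (Finset.gcd_dvd (by rw [hs]; simp [hi]))
    exact Int.natCast_dvd.2 h1
  obtain ⟨q', hq'⟩ := hgq
  have hq'1 : 1 ≤ q' := by
    rcases Nat.eq_zero_or_pos q' with h | h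
    · subst h; omega
    · exact h
  have hex : ∀ i : Fin k, ∃ c : ℤ, i.val ≠ 0 → f i = (g : ℤ) * c := by
    intro i
    by_cases hi : i.val = 0
    · exact ⟨0, fun h => absurd hi h⟩
    · obtain ⟨c, hc⟩ := hgf i hi
      exact ⟨c, fun _ => hc⟩
  choose f' hf' using hex
  have hg0 : (g : ℝ) ≠ 0 := by exact_mod_cast (by omega : g ≠ 0)
  have hq0 : (q' : ℝ) ≠ 0 := by exact_mod_cast (by omega : q' ≠ 0)
  refine ⟨q', f', hq'1, ?_, ?_, ?_, ?_⟩
  · rw [hq']
    exact Nat.le_mul_of_pos_left _ hg1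
  · intro i hi
    rw [hf' i hi, hq']
    push_cast
    field_simp
  · intro d hd hdf
    have h1 : g * d ∣ g := by
      conv_rhs => rw [hg]
      refine Nat.dvd_gcd ?_ ?_
      · rw [hq']
        exact Nat.mul_dvd_mul_left g hd
      · refine Finset.dvd_gcd fun i hi => ?_
        have hi' : i.val ≠ 0 := by
          rw [hs, Finset.mem_filter] at hi
          exact hi.2
        rw [← Int.natCast_dvd]
        rw [hf' i hi']
        push_cast
        exact mul_dvd_mul_left _ (hdf i hi')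
    have h2 : g * d ≤ g := Nat.le_of_dvd hg1 h1
    have h3 : d ≤ 1 := by
      by_contra hc
      have : g * 2 ≤ g * d := Nat.mul_le_mul_left g (by omega)
      omega
    have h4 : d ≠ 0 := by
      rintro rfl
      rw [zero_dvd_iff] at hd
      omega
    omega
  · intro N η τ ξ
    unfold VF
    rw [hq', mul_comm g q', sum_range_split]
    refine Finset.sum_congr rfl fun l _ => ?_
    rw [Finset.sum_eq_single 0]
    · have e1 : (((0 + g * l : ℕ) : ℤ)) = (g : ℤ) * (l : ℤ) := by push_cast; ring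
      rw [e1, mul_comm q' g, Al_red g q' hg1 hq'1 f f' hf']
      congr 1
      refine tsum_congr fun n => ?_
      congr 2
      push_cast
      field_simp
      ring
    · intro b hb hb0
      rw [Finset.mem_range] at hb
      rw [mul_comm q' g, Al_zero g q' hg1 hq'1 f f' hf', zero_mul]
      intro hd
      have h1 : (g : ℤ) ∣ (b : ℤ) := by
        have h2 : ((b + g * l : ℕ) : ℤ) = (b : ℤ) + (g : ℤ) * l := by push_cast; ring
        rw [h2] at hd
        exact (Int.dvd_add_left (Dvd.intro _ rfl)).1 hd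
      have h3 : g ∣ b := by exact_mod_cast h1
      exact hb0 (Nat.eq_zero_of_dvd_of_lt h3 hb)
    · intro h
      exact absurd (Finset.mem_range.2 hg1) h

end Pool.Agent.H33.LVP
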