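import Pool.Agent.H31.LV.Basic
import Pool.Agent.H31.LV.Targets

/-!
# PV: Parseval for the periodisation
-/

set_option autoImplicit false

open Finset MeasureTheory

namespace Pool.Agent.H33.LVP

open Pool.Agent.H24.CL Pool.Agent.H24.LV Pool.Agent.H31.LV

theorem continuous_Ps {k : ℕ} (η : Fin k → ℝ) : Continuous (fun x : ℝ => Ps η x) := by
  unfold Ps
  refine continuous_finsetSum _ fun i _ => ?_
  by_cases h : i.val = 0
  · simp only [h, if_true]
    exact continuous_const
  · simp only [h, if_false]
    fun_prop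

theorem pf_wPV : W_PV := by
  intro k N η τ s hN
  have hab : τ < τ + 1 := by linarith
  have hPc : Continuous (fun σ : ℝ => TT N η s σ) := by
    unfold TT
    refine continuous_const.mul (continuous_finsetSum _ fun n _ => ?_)
    refine continuous_ee.comp ?_
    refine Continuous.add (by fun_prop) ?_
    exact (continuous_Ps η).comp (by fun_prop)
  have hmem : MemLp (fun σ : ℝ => TT N η s σ) 2 (volume.restrict (Set.Ioc τ (τ + 1))) := by
    refine MemLp.of_bound hPc.aestronglyMeasurable 1 (ae_of_all _ fun x => ?_)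
    have hN0 : (0 : ℝ) < N := by exact_mod_cast hN
    unfold TT
    rw [norm_mul]
    have h1 : ‖∑ n ∈ range N, ee (s * (n + x) + Ps η (n + x))‖ ≤ N := by
      refine (norm_sum_le _ _).trans ?_
      simp [norm_ee]
    have h2 : ‖(1 / (N : ℂ))‖ = 1 / (N : ℝ) := by simp
    rw [h2, one_div_mul_eq_div, div_le_one hN0]
    exact h1
  have h1 := hasSum_sq_fourierCoeffOn hab hmem
  have e1 : (τ + 1 - τ)⁻¹ = (1 : ℝ) := by rw [add_sub_cancel_left, inv_one]
  rw [e1, one_smul] at h1
  have h2 : (fun n : ℤ => gI (N : ℝ) η τ (s - n)) =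
      fun i : ℤ => ‖fourierCoeffOn hab (fun σ : ℝ => TT N η s σ) i‖ ^ 2 := by
    funext n
    rw [gI_eq, fourierCoeffOn_eq_integral]
    congr 2
    have e2 : (1 / (τ + 1 - τ)) = (1 : ℝ) := by rw [one_div, e1]
    rw [e2, one_smul]
    have h3 : ∀ x : ℝ, (fourier (-n) (x : AddCircle (τ + 1 - τ)) : ℂ) • TT N η s x =
        ∑ m ∈ range N, (1 / (N : ℂ)) * ee ((s - n) * (x + m) + Ps η (x + m)) := by
      intro x
      have h4 : (fourier (-n) (x : AddCircle (τ + 1 - τ)) : ℂ) = ee (-(n * x)) := by
        rw [fourier_coe_apply]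
        unfold ee
        congr 1
        have : ((τ + 1 - τ : ℝ) : ℂ) = 1 := by
          rw [add_sub_cancel_left]; simp
        rw [this]
        push_cast
        ring
      rw [h4, smul_eq_mul]
      unfold TT
      rw [Finset.mul_sum, Finset.mul_sum]
      refine Finset.sum_congr rfl fun m _ => ?_
      rw [← mul_assoc, mul_comm (ee _) (1 / (N : ℂ)), mul_assoc, ← ee_add]
      congr 1
      refine ee_congr _ _ ((n : ℤ) * m) ?_
      rw [add_comm (m : ℝ) x]
      push_cast
      ring
    simp only [h3]
    have hc : ∀ m : ℕ, Continuous (fun x : ℝ =>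
        (1 / (N : ℂ)) * ee ((s - n) * (x + m) + Ps η (x + m))) := by
      intro m
      refine continuous_const.mul (continuous_ee.comp ?_)
      refine Continuous.add (by fun_prop) ?_
      exact (continuous_Ps η).comp (by fun_prop)
    have hc0 : Continuous (fun x : ℝ => (1 / (N : ℂ)) * ee ((s - n) * x + Ps η x)) := by
      refine continuous_const.mul (continuous_ee.comp ?_)
      exact Continuous.add (by fun_prop) (continuous_Ps η)
    rw [intervalIntegral.integral_finsetSum (fun m _ => (hc m).intervalIntegrable _ _)]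
    have h5 : ∀ m ∈ range N, (∫ x in τ..(τ + 1),
        (1 / (N : ℂ)) * ee ((s - n) * (x + m) + Ps η (x + m))) =
        ∫ x in (τ + (m : ℕ))..(τ + ((m + 1 : ℕ) : ℝ)), (1 / (N : ℂ)) * ee ((s - n) * x + Ps η x) := by
      intro m _
      rw [intervalIntegral.integral_comp_add_right
        (fun x : ℝ => (1 / (N : ℂ)) * ee ((s - n) * x + Ps η x)) (m : ℝ)]
      congr 1
      push_cast
      ring
    rw [Finset.sum_congr rfl h5]
    have h6 := intervalIntegral.sum_integral_adjacent_intervals (n := N)
      (a := fun m : ℕ => τ + (m : ℝ)) (μ := volume)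
      (f := fun x : ℝ => (1 / (N : ℂ)) * ee ((s - n) * x + Ps η x))
      (fun m _ => hc0.intervalIntegrable _ _)
    rw [h6]
    rw [← intervalIntegral.integral_const_mul]
    simp
  rw [h2]
  exact h1

end Pool.Agent.H33.LVP
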